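import Mathlib
import Pool.Agent.X318.QInv

/-!
# MP_aa79fc_nt, Q1: `Z_{N,q⁻¹}(w) = (-1)^k Z_{N,q}(w)` for every word `w` in `x, y, z` in `𝔥⁰`
-/

set_option autoImplicit false

open Finset

namespace Pool.Agent.Results.MP_aa79fc_nt.QInversion

open Pool.Agent.X318.QInv (L)

variable {K : Type*} [Field K]

/-- `a_j`: the number of letters `y` among `u_1, …, u_j`. -/
def aN {k : ℕ} (u : Fin k → L) (j : Fin k) : ℕ := (univ.filter (fun h => h ≤ j ∧ u h = L.y)).card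

/-- `b_j`: the number of letters `x` among `u_j, …, u_k`. -/
def bN {k : ℕ} (u : Fin k → L) (j : Fin k) : ℕ := (univ.filter (fun h => j ≤ h ∧ u h = L.x)).card

/-- The factor of a letter, with `n = n_j`, `a = a_j`, `b = b_j`. -/
def fac (q : K) (N n a b : ℕ) : L → K
  | L.x => 1 / (1 - q ^ (n + a))
  | L.y => -1 / (1 - q ^ ((n : ℤ) - N - b))
  | L.z => 1 / (1 - q ^ (n + a)) - 1 / (1 - q ^ ((n : ℤ) - N - b))

open Classical in
/-- `Z_{N,q}(w)`: the sum over `0 ≤ n_1 ≤ ⋯ ≤ n_k ≤ N`. -/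
noncomputable def Z (q : K) (N : ℕ) {k : ℕ} (u : Fin k → L) : K :=
  ∑ n ∈ univ.filter (fun n : Fin k → Fin (N + 1) => Monotone n),
    ∏ j, fac q N (n j) (aN u j) (bN u j) (u j)

open Pool.Agent.X318

lemma aN_eq {k : ℕ} (u : Fin k → L) (j : Fin k) (hj : u j ≠ L.y) : aN u j = QInv.aa u j := by
  unfold aN QInv.aa
  congr 1
  ext h
  simp only [mem_filter, mem_univ, true_and]
  constructor
  · rintro ⟨h1, h2⟩
    refine ⟨lt_of_le_of_ne h1 ?_, h2⟩
    rintro rfl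
    exact hj h2
  · rintro ⟨h1, h2⟩
    exact ⟨h1.le, h2⟩

lemma inv1 (v : K) (hv : v ≠ 0) : 1 / (1 - v⁻¹) = -(v / (1 - v)) := by
  have h : 1 - v⁻¹ = -((1 - v) / v) := by
    field_simp
    ring
  rw [h, one_div, inv_neg, inv_div]

lemma fac_m (q : K) (hq : q ≠ 0) (N n a b : ℕ) (l : L) (a' : ℕ) (ha : l ≠ L.y → a = a') :
    fac q N n a b l = QInv.fm q l ((n : ℕ) + 0 + a') (N - (n : ℕ) + b) := by
  have hx : ∀ n : ℕ, q ^ ((n : ℤ)) = q ^ n := fun n => zpow_natCast q n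
  have hy : 1 / (1 - q ^ ((n : ℤ) - N - b)) = - (q ^ ((N : ℤ) - n + b) / (1 - q ^ ((N : ℤ) - n + b))) := by
    rw [show (n : ℤ) - N - b = -((N : ℤ) - n + b) by ring, zpow_neg]
    exact inv1 _ (zpow_ne_zero _ hq)
  cases l with
  | x =>
    show 1 / (1 - q ^ (n + a)) = 1 / (1 - q ^ ((n : ℤ) + 0 + a'))
    rw [ha (by decide), add_zero, ← Nat.cast_add, hx]
  | y =>
    show -1 / (1 - q ^ ((n : ℤ) - N - b)) = q ^ ((N : ℤ) - n + b) / (1 - q ^ ((N : ℤ) - n + b))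
    rw [neg_div, hy, neg_neg]
  | z =>
    show 1 / (1 - q ^ (n + a)) - 1 / (1 - q ^ ((n : ℤ) - N - b)) =
      1 / (1 - q ^ ((n : ℤ) + 0 + a')) + q ^ ((N : ℤ) - n + b) / (1 - q ^ ((N : ℤ) - n + b))
    rw [hy, ha (by decide), add_zero, ← Nat.cast_add, hx, sub_neg_eq_add]

lemma fac_p (q : K) (hq : q ≠ 0) (N n a b : ℕ) (l : L) (a' : ℕ) (ha : l ≠ L.y → a = a') :
    fac q⁻¹ N n a b l = - QInv.fp q l ((n : ℕ) + 0 + a') (N - (n : ℕ) + b) := by
  have hx : 1 / (1 - q⁻¹ ^ (n + a)) = - (q ^ (((n + a : ℕ)) : ℤ) / (1 - q ^ (((n + a : ℕ)) : ℤ))) := by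
    rw [inv_pow, zpow_natCast]
    exact inv1 _ (pow_ne_zero _ hq)
  have hy : q⁻¹ ^ ((n : ℤ) - N - b) = q ^ ((N : ℤ) - n + b) := by
    rw [inv_zpow', show -((n : ℤ) - N - b) = (N : ℤ) - n + b by ring]
  cases l with
  | x =>
    show 1 / (1 - q⁻¹ ^ (n + a)) = -(q ^ ((n : ℤ) + 0 + a') / (1 - q ^ ((n : ℤ) + 0 + a')))
    rw [hx, ha (by decide), add_zero, ← Nat.cast_add]
  | y =>
    show -1 / (1 - q⁻¹ ^ ((n : ℤ) - N - b)) = -(1 / (1 - q ^ ((N : ℤ) - n + b)))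
    rw [hy, neg_div]
  | z =>
    show 1 / (1 - q⁻¹ ^ (n + a)) - 1 / (1 - q⁻¹ ^ ((n : ℤ) - N - b)) =
      -(q ^ ((n : ℤ) + 0 + a') / (1 - q ^ ((n : ℤ) + 0 + a')) + 1 / (1 - q ^ ((N : ℤ) - n + b)))
    rw [hx, hy, ha (by decide), add_zero, ← Nat.cast_add]
    ring

lemma Z_m (q : K) (hq : q ≠ 0) (N : ℕ) {k : ℕ} (u : Fin k → L) :
    Z q N u = QInv.T (QInv.fm q) N k u 0 0 := by
  unfold Z QInv.T
  refine sum_congr ?_ fun n _ => prod_congr rfl fun j _ => ?_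
  · ext n
    simp
  · exact fac_m q hq N (n j) (aN u j) (bN u j) (u j) (QInv.aa u j) (fun h => aN_eq u j h)

lemma Z_p (q : K) (hq : q ≠ 0) (N : ℕ) {k : ℕ} (u : Fin k → L) :
    Z q⁻¹ N u = (-1) ^ k * QInv.T (QInv.fp q) N k u 0 0 := by
  unfold Z QInv.T
  rw [mul_sum]
  refine sum_congr ?_ fun n _ => ?_
  · ext n
    simp
  · rw [prod_congr rfl fun j _ => fac_p q hq N (n j) (aN u j) (bN u j) (u j) (QInv.aa u j) (fun h => aN_eq u j h),
      prod_neg, card_univ, Fintype.card_fin]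
    rfl

/-- The symmetry in an arbitrary field. -/
theorem general (q : K) (hq : q ≠ 0) (hr : ∀ m : ℕ, 0 < m → q ^ m ≠ 1) (N k : ℕ) (u : Fin k → L)
    (hfirst : ∀ h : 0 < k, u ⟨0, h⟩ = L.y) (hlast : ∀ h : 0 < k, u ⟨k - 1, by omega⟩ = L.x) :
    Z q⁻¹ N u = (-1) ^ k * Z q N u := by
  rw [Z_p q hq, Z_m q hq, QInv.T_eq _ _ _ _ _ (Nat.zero_le N), QInv.T_eq _ _ _ _ _ (Nat.zero_le N)]
  have h := QInv.symm q hq hr k u hlast hfirst N
  congr 1
  simpa using h.symm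

lemma map_Z {K' : Type*} [Field K'] (φ : K →+* K') (q : K) (N : ℕ) {k : ℕ} (u : Fin k → L) :
    φ (Z q N u) = Z (φ q) N u := by
  unfold Z
  rw [map_sum]
  refine sum_congr rfl fun n _ => ?_
  rw [map_prod]
  refine prod_congr rfl fun j _ => ?_
  cases u j <;> simp [fac]

open Polynomial in
lemma aeval_inj : Function.Injective (Polynomial.aeval ((RatFunc.X : RatFunc ℚ)⁻¹) : ℚ[X] →ₐ[ℚ] RatFunc ℚ) := by
  rw [← transcendental_iff_injective]
  have h1 : Transcendental ℚ (RatFunc.X : RatFunc ℚ) := by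
    convert RatFunc.transcendental_X (K := ℚ)
    exact Subsingleton.elim _ _
  intro h
  apply h1
  rw [← inv_inv (RatFunc.X : RatFunc ℚ)]
  exact h.inv

open Polynomial in
/-- The endomorphism of the field `ℚ(q)` with `q ↦ q⁻¹`. -/
noncomputable def invHom : RatFunc ℚ →+* RatFunc ℚ :=
  RatFunc.liftRingHom (Polynomial.aeval ((RatFunc.X : RatFunc ℚ)⁻¹) : ℚ[X] →ₐ[ℚ] RatFunc ℚ).toRingHom
    (nonZeroDivisors_le_comap_nonZeroDivisors_of_injective _ aeval_inj)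

lemma invHom_X : invHom RatFunc.X = (RatFunc.X : RatFunc ℚ)⁻¹ := by
  have h : invHom (algebraMap (Polynomial ℚ) (RatFunc ℚ) Polynomial.X) = (RatFunc.X : RatFunc ℚ)⁻¹ := by
    unfold invHom
    rw [RatFunc.liftRingHom_algebraMap]
    simp
  rwa [RatFunc.algebraMap_X] at h

lemma invHom_invHom (x : RatFunc ℚ) : invHom (invHom x) = x := by
  have h : invHom.comp invHom = RingHom.id (RatFunc ℚ) := by
    apply IsFractionRing.ringHom_ext (A := Polynomial ℚ)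
    intro p
    have h2 : (invHom.comp invHom).comp (algebraMap (Polynomial ℚ) (RatFunc ℚ)) =
        (RingHom.id (RatFunc ℚ)).comp (algebraMap (Polynomial ℚ) (RatFunc ℚ)) := by
      apply Polynomial.ringHom_ext
      · intro a
        simp
      · simp [invHom_X]
    exact RingHom.congr_fun h2 p
  exact RingHom.congr_fun h x

/-- The automorphism of the field `ℚ(q)` with `q ↦ q⁻¹`. -/
noncomputable def inversion : RatFunc ℚ ≃+* RatFunc ℚ where
  toFun := invHom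
  invFun := invHom
  left_inv := invHom_invHom
  right_inv := invHom_invHom
  map_mul' := map_mul invHom
  map_add' := map_add invHom

lemma pow_X_ne_one (m : ℕ) (hm : 0 < m) : (RatFunc.X : RatFunc ℚ) ^ m ≠ 1 := by
  intro h
  rw [← RatFunc.algebraMap_X, ← map_pow, ← map_one (algebraMap (Polynomial ℚ) (RatFunc ℚ))] at h
  have h2 := congrArg Polynomial.natDegree (RatFunc.algebraMap_injective ℚ h)
  simp at h2
  omega

/-- **Main result.** -/
theorem result :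
    -- the automorphism `q ↦ q⁻¹` of `ℚ(q)` and the identity of Q1
    (inversion RatFunc.X = (RatFunc.X : RatFunc ℚ)⁻¹ ∧
      ∀ (N k : ℕ) (u : Fin k → L), (∀ h : 0 < k, u ⟨0, h⟩ = L.y) → (∀ h : 0 < k, u ⟨k - 1, by omega⟩ = L.x) →
        inversion (Z (RatFunc.X : RatFunc ℚ) N u) = (-1) ^ k * Z (RatFunc.X : RatFunc ℚ) N u) ∧
    -- the same identity for every `q ≠ 0` that is not a root of unity, in every field
    (∀ (F : Type) [Field F] (q : F), q ≠ 0 → (∀ m : ℕ, 0 < m → q ^ m ≠ 1) →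
      ∀ (N k : ℕ) (u : Fin k → L), (∀ h : 0 < k, u ⟨0, h⟩ = L.y) → (∀ h : 0 < k, u ⟨k - 1, by omega⟩ = L.x) →
        Z q⁻¹ N u = (-1) ^ k * Z q N u) := by
  refine ⟨⟨invHom_X, ?_⟩, ?_⟩
  · intro N k u h1 h2
    have h3 : inversion (Z (RatFunc.X : RatFunc ℚ) N u) = Z (invHom (RatFunc.X : RatFunc ℚ)) N u :=
      map_Z invHom RatFunc.X N u
    rw [h3, invHom_X]
    exact general _ RatFunc.X_ne_zero pow_X_ne_one N k u h1 h2
  · intro F _ q hq hr N k u h1 h2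
    exact general q hq hr N k u h1 h2

end Pool.Agent.Results.MP_aa79fc_nt.QInversion
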